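import Pool.Agent.Lib.MP_c7af3c_ag.T2C.H87.Quad
import Pool.Agent.Lib.MP_c7af3c_ag.T2C.NO3.Iface

/-!
# MP_c7af3c_ag, project T2C, row N3Q (helper87): quadrics through a point which is on no plane
-/

set_option autoImplicit false

namespace Pool.Agent.T2C.H87

open Module MvPolynomial Pool.Agent.T2C.NO3
open Pool.Agent.T2 (Fk Rac)

section

variable {Ω : Type} [Field Ω] [CharZero Ω] {K : Subfield Ω}

/-- The coordinates of the unit vectors. -/
noncomputable def rc (u : Basis (Fin 4) K (Fin 4 → K)) (j i : Fin 4) : K :=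
  u.repr (Pi.single j 1) i

omit [CharZero Ω] in
theorem repr_rc (u : Basis (Fin 4) K (Fin 4 → K)) (x : Fin 4 → K) (i : Fin 4) :
    u.repr x i = ∑ j, rc u j i * x j := by
  classical
  have h : x = ∑ j, x j • (Pi.single j 1 : Fin 4 → K) := by
    ext k
    simp [Pi.single_apply]
  conv_lhs => rw [h]
  rw [map_sum, Finsupp.finsetSum_apply]
  refine Finset.sum_congr rfl fun j _ => ?_
  rw [map_smul, Finsupp.smul_apply, smul_eq_mul, mul_comm]
  rfl

omit [CharZero Ω] in
theorem rc_left (u : Basis (Fin 4) K (Fin 4 → K)) (i i' : Fin 4) :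
    ∑ j, rc u j i' * u i j = if i = i' then 1 else 0 := by
  rw [← repr_rc, Basis.repr_self, Finsupp.single_apply]

omit [CharZero Ω] in
theorem rc_right (u : Basis (Fin 4) K (Fin 4 → K)) (j k : Fin 4) :
    ∑ i, rc u j i * u i k = if k = j then 1 else 0 := by
  classical
  have h := congrFun (u.sum_repr (Pi.single j (1 : K))) k
  rw [Finset.sum_apply] at h
  simp only [Pi.smul_apply, smul_eq_mul, Pi.single_apply] at h
  exact h

omit [CharZero Ω] in
/-- Polynomials over `K` are polynomials over `Ω`. -/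
theorem lift_poly {e : ℕ} {f : MvPolynomial (Fin 4) Ω} (hf : Fk K e f) :
    ∃ f0 : MvPolynomial (Fin 4) K, f0.IsHomogeneous e ∧ MvPolynomial.map K.subtype f0 = f := by
  have h1 : f ∈ Set.range (MvPolynomial.map K.subtype) := by
    rw [MvPolynomial.mem_range_map_iff_coeffs_subset]
    intro a ha
    obtain ⟨m, -, rfl⟩ := MvPolynomial.mem_coeffs_iff.1 ha
    exact ⟨⟨_, hf.2 m⟩, rfl⟩
  obtain ⟨f0, h0⟩ := h1
  refine ⟨f0, ?_, h0⟩
  intro m hm
  refine hf.1 (d := m) ?_
  rw [← h0, coeff_map]
  intro h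
  exact hm ((map_eq_zero K.subtype).1 h)

/-- The coordinates of a form in the basis `u`. -/
theorem frame (u : Basis (Fin 4) K (Fin 4 → K)) (f0 P : MvPolynomial (Fin 4) K)
    (h : ∀ x : Fin 4 → K, eval x f0 = eval (fun i => u.repr x i) P)
    {A : Type} [CommRing A] [Algebra Ω A] (z : Fin 4 → A) :
    aeval z (MvPolynomial.map K.subtype f0) =
      aeval (fun i => ∑ j, algebraMap Ω A (rc u j i) * z j) (MvPolynomial.map K.subtype P) := by
  have h1 : f0 = aeval (fun i => ∑ j, C (rc u j i) * X j) P := by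
    refine MvPolynomial.funext fun x => ?_
    rw [h x]
    have h2 : (eval x (aeval (fun i => ∑ j, C (rc u j i) * X j) P)) =
        eval₂ (RingHom.id K) (fun i => eval x (∑ j, C (rc u j i) * X j)) P := by
      rw [aeval_def, eval_eval₂]
      congr 1
      ext a
      simp
    rw [h2]
    show eval₂ (RingHom.id K) _ P = _
    congr 1
    funext i
    rw [repr_rc, map_sum]
    refine Finset.sum_congr rfl fun j _ => ?_
    rw [map_mul, eval_C, eval_X]
  conv_lhs => rw [h1]
  rw [aeval_def, aeval_def, aeval_def, eval₂_map, eval₂_map]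
  set φ : K →+* A := (algebraMap Ω A).comp K.subtype with hφ
  have h2 : ∀ q : MvPolynomial (Fin 4) K, eval₂ φ z q = eval₂Hom φ z q := fun q => rfl
  rw [h2, hom_eval₂]
  have h3 : (eval₂Hom φ z).comp (algebraMap K (MvPolynomial (Fin 4) K)) = φ := by
    ext a
    simp [MvPolynomial.algebraMap_eq]
  rw [h3]
  congr 1
  funext i
  rw [map_sum]
  refine Finset.sum_congr rfl fun j _ => ?_
  rw [map_mul, coe_eval₂Hom, eval₂_C, eval₂_X]
  rfl

omit [CharZero Ω] in
/-- The basis over `Ω`. -/
theorem gind (u : Basis (Fin 4) K (Fin 4 → K)) :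
    LinearIndependent Ω (fun i j => ((u i j : K) : Ω) : Fin 4 → Fin 4 → Ω) := by
  rw [Fintype.linearIndependent_iff]
  intro a ha i
  have h1 : ∀ j, ∑ i, a i * ((u i j : K) : Ω) = 0 := by
    intro j
    have := congrFun ha j
    rw [Finset.sum_apply] at this
    exact this
  have h2 : ∑ j, ((rc u j i : K) : Ω) * ∑ i', a i' * ((u i' j : K) : Ω) = a i := by
    simp only [Finset.mul_sum]
    rw [Finset.sum_comm]
    rw [Finset.sum_eq_single i]
    · have := congrArg (fun t : K => (t : Ω)) (rc_left u i i)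
      simp only [if_true] at this
      push_cast at this
      calc ∑ j, ((rc u j i : K) : Ω) * (a i * ((u i j : K) : Ω))
          = a i * ∑ j, ((rc u j i : K) : Ω) * ((u i j : K) : Ω) := by
            rw [Finset.mul_sum]
            exact Finset.sum_congr rfl fun j _ => by ring
        _ = a i := by rw [this, mul_one]
    · intro i' _ hi'
      have := congrArg (fun t : K => (t : Ω)) (rc_left u i' i)
      simp only [if_neg hi'] at this
      push_cast at this
      calc ∑ j, ((rc u j i : K) : Ω) * (a i' * ((u i' j : K) : Ω))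
          = a i' * ∑ j, ((rc u j i : K) : Ω) * ((u i' j : K) : Ω) := by
            rw [Finset.mul_sum]
            exact Finset.sum_congr rfl fun j _ => by ring
        _ = 0 := by rw [this, mul_zero]
    · intro h
      exact absurd (Finset.mem_univ i) h
  rw [← h2]
  exact Finset.sum_eq_zero fun j _ => by rw [h1 j, mul_zero]

omit [CharZero Ω] in
/-- The coordinates of a point over `Ω`. -/
theorem ycoord (u : Basis (Fin 4) K (Fin 4 → K)) (y : Fin 4 → Ω) (k : Fin 4) :
    y k = ∑ i, (∑ j, ((rc u j i : K) : Ω) * y j) * ((u i k : K) : Ω) := by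
  have h : ∀ j, ∑ i, ((rc u j i : K) : Ω) * ((u i k : K) : Ω) = if k = j then 1 else 0 := by
    intro j
    have := congrArg (fun t : K => (t : Ω)) (rc_right u j k)
    push_cast at this
    rw [this]
    split_ifs <;> simp
  calc y k = ∑ j, (if k = j then 1 else 0) * y j := by simp
    _ = ∑ j, (∑ i, ((rc u j i : K) : Ω) * ((u i k : K) : Ω)) * y j :=
        Finset.sum_congr rfl fun j _ => by rw [h j]
    _ = ∑ i, (∑ j, ((rc u j i : K) : Ω) * y j) * ((u i k : K) : Ω) := by
        simp only [Finset.sum_mul]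
        rw [Finset.sum_comm]
        exact Finset.sum_congr rfl fun i _ => Finset.sum_congr rfl fun j _ => by ring

omit [CharZero Ω] in
/-- The coordinates of a parametrised point. -/
theorem pcoord (u : Basis (Fin 4) K (Fin 4 → K)) (ψ : Fin 4 → MvPolynomial (Fin 2) Ω)
    (i : Fin 4) :
    ∑ p, algebraMap Ω (MvPolynomial (Fin 2) Ω) (rc u p i) *
      ∑ j, C ((u j p : K) : Ω) * ψ j = ψ i := by
  have h : ∀ j, ∑ p, ((rc u p i : K) : Ω) * ((u j p : K) : Ω) = if j = i then 1 else 0 := by
    intro j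
    have := congrArg (fun t : K => (t : Ω)) (rc_left u j i)
    push_cast at this
    rw [this]
    split_ifs <;> simp
  simp only [MvPolynomial.algebraMap_eq]
  calc ∑ p, C ((rc u p i : K) : Ω) * ∑ j, C ((u j p : K) : Ω) * ψ j
      = ∑ j, C (∑ p, ((rc u p i : K) : Ω) * ((u j p : K) : Ω)) * ψ j := by
        simp only [Finset.mul_sum, map_sum, Finset.sum_mul, map_mul]
        rw [Finset.sum_comm]
        exact Finset.sum_congr rfl fun j _ => Finset.sum_congr rfl fun p _ => by ring
    _ = ∑ j, (if j = i then 1 else 0) * ψ j := by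
        refine Finset.sum_congr rfl fun j _ => ?_
        rw [h j]
        split_ifs <;> simp
    _ = ψ i := by simp

end

end Pool.Agent.T2C.H87

namespace Pool.Agent.T2C.NO3

open MvPolynomial Pool.Agent.T2C.H87 Module
open Pool.Agent.T2 (Fk Rac)

/-- Row N3Q. -/
theorem n3q : N3QStatement := by
  intro Ω _ _ K hK y hy f hf f0 hyf
  obtain ⟨f₀, hf₀, hmap⟩ := lift_poly hf
  have : IsAlgClosed K := hK
  have fr := fun (u : Basis (Fin 4) K (Fin 4 → K)) (P : MvPolynomial (Fin 4) K) h =>
    frame (Ω := Ω) (A := Ω) u f₀ P h y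
  -- a coordinate of `y` is not zero
  have hc : ∀ (u : Basis (Fin 4) K (Fin 4 → K)) (b : Fin 4 → K),
      ∑ i, ((b i : K) : Ω) * ∑ j, ((rc u j i : K) : Ω) * y j = 0 → b = 0 := by
    intro u b hb
    have h1 : ∑ j, (∑ i, ((b i : K) : Ω) * ((rc u j i : K) : Ω)) * y j = 0 := by
      rw [← hb]
      simp only [Finset.mul_sum, Finset.sum_mul]
      rw [Finset.sum_comm]
      exact Finset.sum_congr rfl fun i _ => Finset.sum_congr rfl fun j _ => by ring
    have h2 := hy (fun j => ∑ i, ((b i : K) : Ω) * ((rc u j i : K) : Ω))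
      (fun j => sum_mem fun i _ => K.mul_mem (b i).2 (rc u j i).2) h1
    funext i
    have h3 : ∀ j, ∑ i, b i * rc u j i = 0 := by
      intro j
      have := congrFun h2 j
      apply Subtype.ext
      push_cast
      exact this
    have h4 : ∑ j, (∑ i', b i' * rc u j i') * u i j = b i := by
      calc ∑ j, (∑ i', b i' * rc u j i') * u i j = ∑ i', b i' * ∑ j, rc u j i' * u i j := by
            simp only [Finset.mul_sum, Finset.sum_mul]
            rw [Finset.sum_comm]
            exact Finset.sum_congr rfl fun i _ => Finset.sum_congr rfl fun j _ => by ring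
        _ = ∑ i', b i' * (if i = i' then 1 else 0) :=
            Finset.sum_congr rfl fun i' _ => by rw [rc_left]
        _ = b i := by simp
    rw [← h4]
    exact Finset.sum_eq_zero fun j _ => by rw [h3 j, zero_mul]
  have hc0 : ∀ u : Basis (Fin 4) K (Fin 4 → K), ∑ j, ((rc u j 0 : K) : Ω) * y j ≠ 0 := by
    intro u h
    have h1 := hc u (Pi.single 0 1) (by
      rw [Finset.sum_eq_single 0]
      · rw [Pi.single_eq_same, h, mul_zero]
      · intro i _ hi
        rw [Pi.single_eq_of_ne hi]
        simp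
      · intro h
        exact absurd (Finset.mem_univ _) h)
    have h2 := congrFun h1 0
    rw [Pi.single_eq_same] at h2
    exact one_ne_zero h2
  have hgK : ∀ (u : Basis (Fin 4) K (Fin 4 → K)) (i j : Fin 4), ((u i j : K) : Ω) ∈ K :=
    fun u i j => (u i j).2
  rcases quad4 hf₀ with ⟨u, hu⟩ | ⟨u, hu⟩ | ⟨u, e, e', hu⟩
  · -- rank 4
    have hP : ∀ x : Fin 4 → K, eval x f₀ =
        eval (fun i => u.repr x i) (X 0 * X 3 - X 1 * X 2 : MvPolynomial (Fin 4) K) := by
      intro x
      rw [hu x]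
      simp
    have h1 := fr u _ hP
    rw [hmap, aeval_eq_eval, hyf] at h1
    simp only [map_sub, map_mul, MvPolynomial.map_X, aeval_X] at h1
    set c : Fin 4 → Ω := fun i => ∑ j, ((rc u j i : K) : Ω) * y j with hcdef
    have h1' : c 0 * c 3 = c 1 * c 2 := by
      have h2 : c 0 * c 3 - c 1 * c 2 = 0 := h1.symm
      linear_combination h2
    have h0 : c 0 ≠ 0 := hc0 u
    refine ⟨fun i j => ((u i j : K) : Ω), c 0, c 2 / c 0, c 1 / c 0, hgK u, gind u, h0,
      Or.inl ⟨?_, ?_⟩⟩
    · rw [← hmap, frame u f₀ _ hP]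
      simp only [map_sub, map_mul, MvPolynomial.map_X, aeval_X, pcoord]
      simp [psiS]
      ring
    · intro i
      rw [ycoord u y i, Fin.sum_univ_four]
      show c 0 * _ + c 1 * _ + c 2 * _ + c 3 * _ = _
      field_simp
      linear_combination (((u 3 i : K) : Ω)) * h1'
  · -- rank 3
    have hP : ∀ x : Fin 4 → K, eval x f₀ =
        eval (fun i => u.repr x i) (X 0 * X 2 - X 1 ^ 2 : MvPolynomial (Fin 4) K) := by
      intro x
      rw [hu x]
      simp
    have h1 := fr u _ hP
    rw [hmap, aeval_eq_eval, hyf] at h1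
    simp only [map_sub, map_mul, map_pow, MvPolynomial.map_X, aeval_X] at h1
    set c : Fin 4 → Ω := fun i => ∑ j, ((rc u j i : K) : Ω) * y j with hcdef
    have h1' : c 0 * c 2 = c 1 ^ 2 := by
      have h2 : c 0 * c 2 - c 1 ^ 2 = 0 := h1.symm
      linear_combination h2
    have h0 : c 0 ≠ 0 := hc0 u
    refine ⟨fun i j => ((u i j : K) : Ω), c 0, c 1 / c 0, c 3 / c 0, hgK u, gind u, h0,
      Or.inr ⟨?_, ?_⟩⟩
    · rw [← hmap, frame u f₀ _ hP]
      simp only [map_sub, map_mul, map_pow, MvPolynomial.map_X, aeval_X, pcoord]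
      simp [psiC]
    · intro i
      rw [ycoord u y i, Fin.sum_univ_four]
      show c 0 * _ + c 1 * _ + c 2 * _ + c 3 * _ = _
      field_simp
      linear_combination (((u 2 i : K) : Ω)) * h1'
  · -- a product of linear forms
    exfalso
    have hP : ∀ x : Fin 4 → K, eval x f₀ =
        eval (fun i => u.repr x i) (C e * X 0 ^ 2 + C e' * X 1 ^ 2 : MvPolynomial (Fin 4) K) := by
      intro x
      rw [hu x]
      simp
    have h1 := fr u _ hP
    rw [hmap, aeval_eq_eval, hyf] at h1
    simp only [map_add, map_mul, map_pow, MvPolynomial.map_X, MvPolynomial.map_C, aeval_X,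
      aeval_C] at h1
    set c : Fin 4 → Ω := fun i => ∑ j, ((rc u j i : K) : Ω) * y j with hcdef
    have h1' : ((e : K) : Ω) * c 0 ^ 2 + ((e' : K) : Ω) * c 1 ^ 2 = 0 := h1.symm
    obtain ⟨s, hs⟩ : ∃ s : K, s ^ 2 = e := IsAlgClosed.exists_pow_nat_eq e two_pos
    obtain ⟨t, ht⟩ : ∃ t : K, t ^ 2 = e' := IsAlgClosed.exists_pow_nat_eq e' two_pos
    obtain ⟨ι, hι⟩ : ∃ ι : K, ι ^ 2 = -1 := IsAlgClosed.exists_pow_nat_eq (-1) two_pos
    have hs' : ((s : K) : Ω) ^ 2 = e := by rw [← hs]; push_cast; rfl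
    have ht' : ((t : K) : Ω) ^ 2 = e' := by rw [← ht]; push_cast; rfl
    have hι' : ((ι : K) : Ω) ^ 2 = -1 := by
      have := congrArg (fun t : K => (t : Ω)) hι
      push_cast at this
      exact this
    have h2 : (((s : K) : Ω) * c 0 + ((ι * t : K) : Ω) * c 1) *
        (((s : K) : Ω) * c 0 + ((-(ι * t) : K) : Ω) * c 1) = 0 := by
      push_cast
      rw [← hs', ← ht'] at h1'
      linear_combination h1' - (((t : K) : Ω) ^ 2 * c 1 ^ 2) * hι'
    have h3 : ∀ b : K, ((s : K) : Ω) * c 0 + ((b : K) : Ω) * c 1 = 0 → s = 0 ∧ b = 0 := by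
      intro b hb
      have h4 := hc u ![s, b, 0, 0] (by
        rw [Fin.sum_univ_four]
        simp only [Matrix.cons_val]
        show ((s : K) : Ω) * c 0 + ((b : K) : Ω) * c 1 + ((0 : K) : Ω) * c 2 +
          ((0 : K) : Ω) * c 3 = 0
        rw [hb]
        simp)
      exact ⟨congrFun h4 0, congrFun h4 1⟩
    have ι0 : ι ≠ 0 := fun h => by
      rw [h] at hι
      norm_num at hι
    have h5 : s = 0 ∧ t = 0 := by
      rcases mul_eq_zero.1 h2 with h | h
      · obtain ⟨h6, h7⟩ := h3 _ h
        exact ⟨h6, (mul_eq_zero.1 h7).resolve_left ι0⟩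
      · obtain ⟨h6, h7⟩ := h3 _ h
        exact ⟨h6, (mul_eq_zero.1 (neg_eq_zero.1 h7)).resolve_left ι0⟩
    apply f0
    rw [← hmap]
    have h6 : f₀ = 0 := by
      refine MvPolynomial.funext fun x => ?_
      rw [hu x, ← hs, ← ht, h5.1, h5.2]
      simp
    rw [h6, map_zero]

end Pool.Agent.T2C.NO3
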