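import Mathlib

/-!
# MP_c7af3c_ag, project T2C (helper87): quadrics in `P^3` over an algebraically closed field

A nonzero quadratic form in four variables is, in suitable coordinates, `a0 a3 - a1 a2`, or
`a0 a2 - a1 ^ 2`, or a product of two linear forms.
-/

set_option autoImplicit false

namespace Pool.Agent.T2C.H87

open Module MvPolynomial

section

variable {K : Type*} [Field K] [CharZero K] {N : ℕ}

theorem exists_single' {s : Fin N →₀ ℕ} (h : s.degree = 1) : ∃ j, s = Finsupp.single j 1 := by
  classical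
  rw [Finsupp.degree_eq_sum] at h
  obtain ⟨j, hj⟩ : ∃ j, s j ≠ 0 := by
    by_contra hc
    push Not at hc
    rw [Finset.sum_eq_zero fun i _ => hc i] at h
    exact absurd h (by norm_num)
  have h1 := Finset.add_sum_erase Finset.univ (fun i => s i) (Finset.mem_univ j)
  have h2 : ∑ i ∈ Finset.univ.erase j, s i = 0 := by omega
  rw [Finset.sum_eq_zero_iff] at h2
  refine ⟨j, Finsupp.ext fun i => ?_⟩
  by_cases hij : i = j
  · subst hij
    rw [Finsupp.single_eq_same]
    omega
  · rw [Finsupp.single_eq_of_ne hij]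
    exact h2 i (Finset.mem_erase.2 ⟨hij, Finset.mem_univ i⟩)

omit [CharZero K] in
theorem lin_exp' {p : MvPolynomial (Fin N) K} (hp : p.IsHomogeneous 1) :
    p = ∑ j, C (coeff (Finsupp.single j 1) p) * X j := by
  classical
  ext s
  rw [coeff_sum]
  simp only [coeff_C_mul, coeff_X]
  by_cases hs : s.degree = 1
  · obtain ⟨j, rfl⟩ := exists_single' hs
    rw [Finset.sum_eq_single j]
    · simp
    · intro i _ hij
      rw [if_neg, mul_zero]
      intro h
      exact hij (Finsupp.single_left_injective one_ne_zero h)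
    · intro h
      exact absurd (Finset.mem_univ j) h
  · rw [hp.coeff_eq_zero hs, Finset.sum_eq_zero]
    intro i _
    rw [if_neg, mul_zero]
    rintro rfl
    exact hs (by simp)

/-- The matrix of a quadratic form. -/
theorem quad_exp' {q : MvPolynomial (Fin N) K} (hq : q.IsHomogeneous 2) :
    ∃ M : Matrix (Fin N) (Fin N) K, M.transpose = M ∧
      ∀ x : Fin N → K, eval x q = ∑ i, ∑ j, M i j * x i * x j := by
  classical
  set A : Matrix (Fin N) (Fin N) K := fun i j =>
    (1 / 2) * coeff (Finsupp.single j 1) (pderiv i q) with hA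
  have h1 : ∀ i, pderiv i q = ∑ j, C (coeff (Finsupp.single j 1) (pderiv i q)) * X j := by
    intro i
    exact lin_exp' (hq.pderiv (i := i))
  have h2 : ∀ x : Fin N → K, eval x q = ∑ i, ∑ j, A i j * x i * x j := by
    intro x
    have e := hq.sum_X_mul_pderiv
    have e2 := congrArg (eval x) e
    rw [map_sum, map_nsmul] at e2
    have e3 : ∀ i, eval x (X i * pderiv i q) = 2 * ∑ j, A i j * x i * x j := by
      intro i
      rw [map_mul, eval_X, h1 i, map_sum, Finset.mul_sum, Finset.mul_sum]
      refine Finset.sum_congr rfl fun j _ => ?_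
      rw [map_mul, eval_C, eval_X, hA]
      ring
    rw [Finset.sum_congr rfl fun i _ => e3 i, ← Finset.mul_sum] at e2
    have e4 : (2 : K) * eval x q = 2 * ∑ i, ∑ j, A i j * x i * x j := by
      rw [e2, nsmul_eq_mul]
      norm_num
    exact mul_left_cancel₀ two_ne_zero e4
  refine ⟨(1 / 2 : K) • (A + A.transpose), ?_, ?_⟩
  · ext i j
    simp only [Matrix.transpose_apply, Matrix.smul_apply, Matrix.add_apply, smul_eq_mul]
    ring
  · intro x
    rw [h2 x]
    have h3 : ∑ i, ∑ j, A j i * x i * x j = ∑ i, ∑ j, A i j * x i * x j := by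
      rw [Finset.sum_comm]
      exact Finset.sum_congr rfl fun i _ => Finset.sum_congr rfl fun j _ => by ring
    have h4 : ∑ i, ∑ j, ((1 / 2 : K) • (A + A.transpose)) i j * x i * x j =
        (1 / 2) * (∑ i, ∑ j, A i j * x i * x j + ∑ i, ∑ j, A j i * x i * x j) := by
      rw [← Finset.sum_add_distrib, Finset.mul_sum]
      refine Finset.sum_congr rfl fun i _ => ?_
      rw [← Finset.sum_add_distrib, Finset.mul_sum]
      refine Finset.sum_congr rfl fun j _ => ?_
      simp only [Matrix.smul_apply, Matrix.add_apply, Matrix.transpose_apply, smul_eq_mul]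
      ring
    rw [h4, h3]
    ring

/-- diagonal form: `w i` are coordinates with respect to a basis `v` -/
theorem quad_diag' {q : MvPolynomial (Fin N) K} (hq : q.IsHomogeneous 2) :
    ∃ (v : Basis (Fin N) K (Fin N → K)) (d : Fin N → K),
      ∀ x : Fin N → K, eval x q = ∑ i, d i * v.repr x i ^ 2 := by
  classical
  obtain ⟨M, hM, hMq⟩ := quad_exp' hq
  have hB0 : (Matrix.toBilin' M).IsSymm := Matrix.isSymm_toBilin'_iff_isSymm.2 hM
  have hB : LinearMap.IsSymm (Matrix.toBilin' M) := ⟨fun x y => by
    rw [RingHom.id_apply]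
    exact hB0.eq x y⟩
  have : Invertible (2 : K) := invertibleOfNonzero two_ne_zero
  obtain ⟨v, hv⟩ := LinearMap.BilinForm.exists_orthogonal_basis hB
  let e : Fin (finrank K (Fin N → K)) ≃ Fin N := finCongr (by simp)
  refine ⟨v.reindex e, fun i => Matrix.toBilin' M (v.reindex e i) (v.reindex e i), ?_⟩
  intro x
  set u := v.reindex e with hu
  have horth : ∀ i j, i ≠ j → Matrix.toBilin' M (u i) (u j) = 0 := by
    intro i j hij
    rw [hu, Basis.reindex_apply, Basis.reindex_apply]
    exact hv (fun h => hij (e.symm.injective h))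
  have h1 : eval x q = Matrix.toBilin' M x x := by
    rw [hMq x, Matrix.toBilin'_apply]
    refine Finset.sum_congr rfl fun i _ => Finset.sum_congr rfl fun j _ => ?_
    ring
  have h2 : x = ∑ i, u.repr x i • u i := (u.sum_repr x).symm
  have h3 : ∀ i, Matrix.toBilin' M (u i) x =
      u.repr x i * Matrix.toBilin' M (u i) (u i) := by
    intro i
    conv_lhs => rw [h2]
    rw [map_sum, Finset.sum_eq_single i]
    · rw [map_smul, smul_eq_mul]
    · intro j _ hj
      rw [map_smul, horth i j hj.symm, smul_zero]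
    · intro h
      exact absurd (Finset.mem_univ i) h
  have h4 : Matrix.toBilin' M x x = ∑ i, u.repr x i * Matrix.toBilin' M (u i) x := by
    calc Matrix.toBilin' M x x = Matrix.toBilin' M (∑ i, u.repr x i • u i) x := by rw [← h2]
      _ = ∑ i, u.repr x i * Matrix.toBilin' M (u i) x := by
          rw [map_sum, LinearMap.sum_apply]
          refine Finset.sum_congr rfl fun i _ => ?_
          rw [map_smul, LinearMap.smul_apply, smul_eq_mul]
  rw [h1, h4]
  refine Finset.sum_congr rfl fun i _ => ?_
  rw [h3 i]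
  ring

omit [CharZero K] in
/-- A change of coordinates by an injective matrix. -/
theorem coord_basis (v : Basis (Fin N) K (Fin N → K)) (M : Matrix (Fin N) (Fin N) K)
    (hM : ∀ a, M.mulVec a = 0 → a = 0) :
    ∃ w : Basis (Fin N) K (Fin N → K), ∀ x i, w.repr x i = M.mulVec (fun j => v.repr x j) i := by
  classical
  have hinj : Function.Injective (Matrix.toLin' M) := by
    rw [← LinearMap.ker_eq_bot, LinearMap.ker_eq_bot']
    intro a ha
    exact hM a (by rw [← Matrix.toLin'_apply]; exact ha)
  let f : (Fin N → K) ≃ₗ[K] (Fin N → K) := LinearEquiv.ofInjectiveEndo _ hinj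
  let g : (Fin N → K) ≃ₗ[K] (Fin N → K) := v.equivFun.trans f
  refine ⟨Basis.ofEquivFun g, fun x i => ?_⟩
  rw [Basis.ofEquivFun_repr_apply]
  rfl

end

section

variable {K : Type*} [Field K] [CharZero K] [IsAlgClosed K]

/-- The normal forms of quadratic forms in four variables. -/
theorem quad4 {q : MvPolynomial (Fin 4) K} (hq : q.IsHomogeneous 2) :
    (∃ u : Basis (Fin 4) K (Fin 4 → K), ∀ x, eval x q = u.repr x 0 * u.repr x 3 -
      u.repr x 1 * u.repr x 2) ∨
    (∃ u : Basis (Fin 4) K (Fin 4 → K), ∀ x, eval x q = u.repr x 0 * u.repr x 2 -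
      u.repr x 1 ^ 2) ∨
    ∃ (u : Basis (Fin 4) K (Fin 4 → K)) (e f : K), ∀ x, eval x q = e * u.repr x 0 ^ 2 +
      f * u.repr x 1 ^ 2 := by
  classical
  obtain ⟨v, d, h⟩ := quad_diag' hq
  let φ : Fin 4 → ℕ := fun i => if d i = 0 then 1 else 0
  let σ := Tuple.sort φ
  have hmono : Monotone (φ ∘ σ) := Tuple.monotone_sort φ
  set D : Fin 4 → K := fun i => d (σ i) with hD
  let v' := v.reindex σ.symm
  have hv' : ∀ x i, v'.repr x i = v.repr x (σ i) := fun x i => by
    show (v.reindex σ.symm).repr x i = _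
    rw [Basis.repr_reindex_apply, Equiv.symm_symm]
  have h' : ∀ x, eval x q = ∑ i, D i * v'.repr x i ^ 2 := fun x => by
    rw [h x, ← Equiv.sum_comp σ]
    exact Finset.sum_congr rfl fun i _ => by rw [hv']
  have hz : ∀ i j : Fin 4, i ≤ j → D j ≠ 0 → D i ≠ 0 := by
    intro i j hij hj hi
    have h1 := hmono hij
    simp only [Function.comp_apply, φ] at h1
    rw [if_pos (show d (σ i) = 0 from hi), if_neg (show d (σ j) ≠ 0 from hj)] at h1
    exact absurd h1 (by norm_num)
  have hs : ∀ i, ∃ s : K, s ^ 2 = D i := fun i => IsAlgClosed.exists_pow_nat_eq (D i) two_pos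
  choose s hs using hs
  obtain ⟨ι, hι⟩ : ∃ ι : K, ι ^ 2 = -1 := IsAlgClosed.exists_pow_nat_eq (-1) two_pos
  have s0 : ∀ i, D i ≠ 0 → s i ≠ 0 := fun i hi h => hi (by rw [← hs i, h]; ring)
  have ι0 : ι ≠ 0 := fun h => by
    rw [h] at hι
    norm_num at hι
  have h2 : (2 : K) ≠ 0 := two_ne_zero
  -- two linear forms
  have key : ∀ a b p r : K, a ≠ 0 → b ≠ 0 → a * p + ι * b * r = 0 → a * p - ι * b * r = 0 →
      p = 0 ∧ r = 0 := by
    intro a b p r ha hb h3 h4
    constructor
    · have h5 : 2 * a * p = 0 := by linear_combination h3 + h4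
      rcases mul_eq_zero.1 h5 with h6 | h6
      · rcases mul_eq_zero.1 h6 with h7 | h7
        · exact absurd h7 h2
        · exact absurd h7 ha
      · exact h6
    · have h5 : 2 * (ι * b) * r = 0 := by linear_combination h3 - h4
      rcases mul_eq_zero.1 h5 with h6 | h6
      · rcases mul_eq_zero.1 h6 with h7 | h7
        · exact absurd h7 h2
        · exact absurd h7 (mul_ne_zero ι0 hb)
      · exact h6
  by_cases h3 : D 3 = 0
  · by_cases h4 : D 2 = 0
    · refine Or.inr (Or.inr ⟨v', D 0, D 1, fun x => ?_⟩)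
      rw [h' x, Fin.sum_univ_four, h3, h4]
      ring
    · refine Or.inr (Or.inl ?_)
      have t0 := s0 0 (hz 0 2 (by decide) h4)
      have t1 := s0 1 (hz 1 2 (by decide) h4)
      have t2 := s0 2 h4
      obtain ⟨w, hw⟩ := coord_basis v' !![s 0, ι * s 1, 0, 0; 0, 0, ι * s 2, 0;
        s 0, -(ι * s 1), 0, 0; 0, 0, 0, 1] (by
        intro a ha
        have e := fun i => congrFun ha i
        have e0 := e 0
        have e1 := e 1
        have e2 := e 2
        have e3 := e 3
        simp [Matrix.mulVec, dotProduct, Fin.sum_univ_four] at e0 e1 e2 e3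
        obtain ⟨h5, h6⟩ := key (s 0) (s 1) (a 0) (a 1) t0 t1 e0 (by linear_combination e2)
        have h7 : a 2 = 0 := by
          rcases e1 with (h7 | h7) | h7
          · exact absurd h7 ι0
          · exact absurd h7 t2
          · exact h7
        funext i
        fin_cases i
        · exact h5
        · exact h6
        · exact h7
        · exact e3)
      refine ⟨w, fun x => ?_⟩
      rw [h' x, hw x 0, hw x 1, hw x 2, Fin.sum_univ_four]
      simp [Matrix.mulVec, dotProduct, Fin.sum_univ_four]
      rw [← hs 0, ← hs 1, ← hs 2, h3]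
      linear_combination (s 1 ^ 2 * v'.repr x 1 ^ 2 + s 2 ^ 2 * v'.repr x 2 ^ 2) * hι
  · refine Or.inl ?_
    have t0 := s0 0 (hz 0 3 (by decide) h3)
    have t1 := s0 1 (hz 1 3 (by decide) h3)
    have t2 := s0 2 (hz 2 3 (by decide) h3)
    have t3 := s0 3 h3
    obtain ⟨w, hw⟩ := coord_basis v' !![s 0, ι * s 1, 0, 0; 0, 0, -s 2, -(ι * s 3);
      0, 0, s 2, -(ι * s 3); s 0, -(ι * s 1), 0, 0] (by
      intro a ha
      have e := fun i => congrFun ha i
      have e0 := e 0
      have e1 := e 1
      have e2 := e 2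
      have e3 := e 3
      simp [Matrix.mulVec, dotProduct, Fin.sum_univ_four] at e0 e1 e2 e3
      obtain ⟨h5, h6⟩ := key (s 0) (s 1) (a 0) (a 1) t0 t1 e0 (by linear_combination e3)
      obtain ⟨h7, h8⟩ := key (s 2) (s 3) (a 2) (a 3) t2 t3 (by linear_combination -e1)
        (by linear_combination e2)
      funext i
      fin_cases i
      · exact h5
      · exact h6
      · exact h7
      · exact h8)
    refine ⟨w, fun x => ?_⟩
    rw [h' x, hw x 0, hw x 1, hw x 2, hw x 3, Fin.sum_univ_four]
    simp [Matrix.mulVec, dotProduct, Fin.sum_univ_four]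
    rw [← hs 0, ← hs 1, ← hs 2, ← hs 3]
    linear_combination (s 1 ^ 2 * v'.repr x 1 ^ 2 + s 3 ^ 2 * v'.repr x 3 ^ 2) * hι

end

end Pool.Agent.T2C.H87
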